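import Pool.Agent.V11121.MaxDet.KKT

/-!
# The matrices on six base vertices and `6 N` gadget vertices
-/

namespace Pool.Agent.V11121.MaxDet

open Matrix Finset

/-- The circulant matrix of order six with first row `1, y, x, z, x, y`. -/
def Mb (x y z : ℝ) : Matrix (Fin 6) (Fin 6) ℝ := Matrix.of fun i j => ![1, y, x, z, x, y] (i - j)

/-- The circulant matrix of order six with first row `a, b, c, 0, c, b`. -/
def Kb (a b c : ℝ) : Matrix (Fin 6) (Fin 6) ℝ := Matrix.of fun i j => ![a, b, c, 0, c, b] (i - j)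

theorem Kb_mul_Mb {x y z a b c : ℝ} (e0 : a + 2 * b * y + 2 * c * x = 1)
    (e1 : a * y + b * (1 + x) + c * (y + z) = 0) (e2 : a * x + b * (y + z) + c * (1 + x) = 0)
    (e3 : a * z + 2 * b * x + 2 * c * y = 0) : Kb a b c * Mb x y z = 1 := by
  ext i j
  simp only [Matrix.mul_apply, Kb, Mb, Matrix.of_apply, Matrix.one_apply]
  fin_cases i <;> fin_cases j <;>
    simp [Fin.sum_univ_succ] <;>
    linarith

theorem Mb_psd {x y z : ℝ} (h0 : 0 ≤ 1 + 2 * y + 2 * x + z) (h1 : 0 ≤ 1 + y - x - z)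
    (h2 : 0 ≤ 1 - y - x + z) (h3 : 0 ≤ 1 - 2 * y + 2 * x - z) : (Mb x y z).PosSemidef := by
  refine Matrix.PosSemidef.of_dotProduct_mulVec_nonneg ?_ fun v => ?_
  · ext i j
    simp only [Mb, Matrix.conjTranspose_apply, Matrix.of_apply, star_trivial]
    fin_cases i <;> fin_cases j <;> rfl
  · have e : star v ⬝ᵥ (Mb x y z *ᵥ v) =
        (1 + 2 * y + 2 * x + z) / 6 * (v 0 + v 1 + v 2 + v 3 + v 4 + v 5) ^ 2 +
        (1 - 2 * y + 2 * x - z) / 6 * (v 0 - v 1 + v 2 - v 3 + v 4 - v 5) ^ 2 +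
        (1 + y - x - z) / 6 * (((v 0 - v 3) + (v 1 - v 4)) ^ 2 + ((v 1 - v 4) + (v 2 - v 5)) ^ 2 +
          ((v 0 - v 3) - (v 2 - v 5)) ^ 2) +
        (1 - y - x + z) / 6 * (((v 0 + v 3) - (v 1 + v 4)) ^ 2 + ((v 1 + v 4) - (v 2 + v 5)) ^ 2 +
          ((v 0 + v 3) - (v 2 + v 5)) ^ 2) := by
      simp only [Matrix.mulVec, dotProduct, Mb, Matrix.of_apply, Pi.star_apply, star_trivial,
        Fin.sum_univ_six]
      simp
      ring
    rw [e]
    positivity

/-- Incidences between gadget vertices and base vertices: the gadget vertex `(k, a)` is joined to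
`k` and `k + 1`. -/
def Cm (N : ℕ) : Matrix (Fin 6 × Fin N) (Fin 6) ℝ :=
  Matrix.of fun w j => if j = w.1 ∨ j = w.1 + 1 then 1 else 0

theorem CtC (N : ℕ) (i j : Fin 6) :
    ((Cm N)ᵀ * Cm N) i j = N * ![(2 : ℝ), 1, 0, 0, 0, 1] (i - j) := by
  have e : ((Cm N)ᵀ * Cm N) i j = ∑ k : Fin 6, (N : ℝ) * ((if i = k ∨ i = k + 1 then 1 else 0) *
      (if j = k ∨ j = k + 1 then 1 else 0)) := by
    simp only [Matrix.mul_apply, Matrix.transpose_apply, Fintype.sum_prod_type]
    refine Finset.sum_congr rfl fun k _ => ?_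
    have h1 : ∀ a : Fin N, Cm N (k, a) i * Cm N (k, a) j =
        (if i = k ∨ i = k + 1 then 1 else 0) * (if j = k ∨ j = k + 1 then 1 else 0) :=
      fun a => rfl
    rw [Finset.sum_congr rfl (fun a _ => h1 a), Finset.sum_const, Finset.card_univ,
      Fintype.card_fin, nsmul_eq_mul]
  rw [e, ← Finset.mul_sum]
  congr 1
  simp only [Fin.sum_univ_six]
  fin_cases i <;> fin_cases j <;> simp <;> norm_num

/-- The covariance matrix. -/
noncomputable def MM (N : ℕ) (x y z α δ : ℝ) :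
    Matrix (Fin 6 ⊕ (Fin 6 × Fin N)) (Fin 6 ⊕ (Fin 6 × Fin N)) ℝ :=
  Matrix.fromBlocks (Mb x y z) (α • (Mb x y z * (Cm N)ᵀ)) (α • (Cm N * Mb x y z))
    (α ^ 2 • (Cm N * Mb x y z * (Cm N)ᵀ) + δ • 1)

/-- Its inverse. -/
noncomputable def KK (N : ℕ) (a b c α δ : ℝ) :
    Matrix (Fin 6 ⊕ (Fin 6 × Fin N)) (Fin 6 ⊕ (Fin 6 × Fin N)) ℝ :=
  Matrix.fromBlocks (Kb a b c + (α ^ 2 / δ) • ((Cm N)ᵀ * Cm N)) (-(α / δ) • (Cm N)ᵀ)
    (-(α / δ) • Cm N) (δ⁻¹ • 1)

theorem KK_mul_MM {N : ℕ} {x y z a b c α δ : ℝ} (hδ : δ ≠ 0)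
    (h : Kb a b c * Mb x y z = 1) : KK N a b c α δ * MM N x y z α δ = 1 := by
  unfold KK MM
  rw [Matrix.fromBlocks_multiply, ← Matrix.fromBlocks_one]
  congr 1
  · simp only [Matrix.add_mul, Matrix.smul_mul, Matrix.mul_smul, h, Matrix.mul_assoc]
    match_scalars
    · ring
    · field_simp
      ring
  · simp only [Matrix.add_mul, Matrix.smul_mul, Matrix.mul_smul, Matrix.mul_add,
      Matrix.mul_one, Matrix.mul_assoc]
    rw [← Matrix.mul_assoc (Kb a b c), h, Matrix.one_mul]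
    match_scalars
    · field_simp
      ring
    · field_simp
      ring
  · simp only [Matrix.smul_mul, Matrix.mul_smul, Matrix.one_mul]
    match_scalars
    field_simp
    ring
  · simp only [Matrix.smul_mul, Matrix.mul_smul, Matrix.one_mul, Matrix.mul_assoc]
    match_scalars
    · field_simp
      ring
    · field_simp

theorem MM_psd {N : ℕ} {x y z α δ : ℝ} (hM : (Mb x y z).PosSemidef) (hδ : 0 ≤ δ) :
    (MM N x y z α δ).PosSemidef := by
  have e : MM N x y z α δ =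
      Matrix.fromRows (1 : Matrix (Fin 6) (Fin 6) ℝ) (α • Cm N) * Mb x y z *
        (Matrix.fromRows (1 : Matrix (Fin 6) (Fin 6) ℝ) (α • Cm N))ᴴ +
      Matrix.diagonal (Sum.elim (fun _ => 0) (fun _ => δ)) := by
    rw [Matrix.fromRows_mul, Matrix.conjTranspose_fromRows_eq_fromCols_conjTranspose,
      Matrix.fromRows_mul_fromCols]
    unfold MM
    have e2 : (Matrix.diagonal (Sum.elim (fun _ => 0) (fun _ => δ)) :
        Matrix (Fin 6 ⊕ (Fin 6 × Fin N)) (Fin 6 ⊕ (Fin 6 × Fin N)) ℝ) =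
        Matrix.fromBlocks 0 0 0 (δ • 1) := by
      rw [← Matrix.fromBlocks_diagonal]
      congr 1
      · ext i j
        simp [Matrix.diagonal]
      · rw [← Matrix.smul_one_eq_diagonal]
    rw [e2, Matrix.fromBlocks_add]
    congr 1
    · simp
    · simp
    · simp
    · simp only [Matrix.conjTranspose_eq_transpose_of_trivial, Matrix.transpose_smul,
        Matrix.smul_mul, Matrix.mul_smul, Matrix.mul_assoc]
      match_scalars <;> ring
  rw [e]
  refine (hM.mul_mul_conjTranspose_same _).add (Matrix.PosSemidef.diagonal ?_)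
  intro i
  rcases i with i | i
  · simp
  · simpa using hδ

end Pool.Agent.V11121.MaxDet
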