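import Mathlib

/-!
# The determinant-maximising completion: optimality from a sparse inverse
-/

namespace Pool.Agent.V11121.MaxDet

open Matrix Finset
open scoped MatrixOrder

variable {V : Type} [Fintype V] [DecidableEq V]

theorem exists_factor {K : Matrix V V ℝ} (hK : K.PosDef) : ∃ B : Matrix V V ℝ, K = Bᴴ * B := by
  obtain ⟨B, hB⟩ := CStarAlgebra.nonneg_iff_eq_star_mul_self.mp hK.posSemidef.nonneg
  exact ⟨B, hB⟩

theorem det_lt_one {X : Matrix V V ℝ} (hX : X.PosDef) (ht : X.trace = Fintype.card V)
    (h1 : X ≠ 1) : X.det < 1 := by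
  have hH := hX.isHermitian
  have hpos : ∀ i, 0 < hH.eigenvalues i := fun i => hX.eigenvalues_pos i
  have hsum : ∑ i, hH.eigenvalues i = Fintype.card V := by
    have := hH.trace_eq_sum_eigenvalues
    rw [ht] at this
    simpa using this.symm
  have hdet : X.det = ∏ i, hH.eigenvalues i := by
    have := hH.det_eq_prod_eigenvalues
    simpa using this
  have hne : ∃ i, hH.eigenvalues i ≠ 1 := by
    by_contra hcon
    push Not at hcon
    apply h1
    have hs := hH.spectral_theorem
    have he : hH.eigenvalues = fun _ => (1 : ℝ) := funext hcon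
    rw [he] at hs
    rw [hs]
    have : (Matrix.diagonal (RCLike.ofReal ∘ fun _ : V => (1 : ℝ)) : Matrix V V ℝ) = 1 := by
      ext i j
      simp [Matrix.diagonal, Matrix.one_apply]
    rw [this]
    simp
  obtain ⟨i, hi⟩ := hne
  rw [hdet]
  calc ∏ i, hH.eigenvalues i < ∏ i, Real.exp (hH.eigenvalues i - 1) := by
        apply Finset.prod_lt_prod (fun i _ => hpos i)
        · intro j _
          have := Real.add_one_le_exp (hH.eigenvalues j - 1)
          linarith
        · refine ⟨i, mem_univ i, ?_⟩
          have := Real.add_one_lt_exp (sub_ne_zero.mpr hi)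
          linarith
    _ = Real.exp (∑ i, (hH.eigenvalues i - 1)) := by rw [Real.exp_sum]
    _ = 1 := by
        rw [Finset.sum_sub_distrib, hsum]
        simp

/-- If `M` is positive definite and its inverse `K` vanishes at every pair at which the entry of
`M'` is allowed to differ from that of `M`, then `det M' < det M` unless `M' = M`. -/
theorem kkt {M K M' : Matrix V V ℝ} (hM : M.PosDef) (hK : K * M = 1) (hM' : M'.PosDef)
    (h : ∀ u v, K u v = 0 ∨ M' u v = M u v) (hne : M' ≠ M) : M'.det < M.det := by
  have hKinv : M⁻¹ = K := Matrix.inv_eq_left_inv hK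
  have hKp : K.PosDef := hKinv ▸ hM.inv
  obtain ⟨B, hB⟩ := exists_factor hKp
  have hdK : K.det * M.det = 1 := by rw [← Matrix.det_mul, hK, Matrix.det_one]
  have hdK0 : K.det ≠ 0 := by
    intro h0
    rw [h0, zero_mul] at hdK
    exact zero_ne_one hdK
  have hBd : IsUnit B := by
    rw [Matrix.isUnit_iff_isUnit_det, isUnit_iff_ne_zero]
    intro h0
    apply hdK0
    rw [hB, Matrix.det_mul, h0, mul_zero]
  have hX : (B * M' * Bᴴ).PosDef := by
    have := (Matrix.IsUnit.posDef_star_right_conjugate_iff hBd (x := M')).mpr hM'
    simpa [Matrix.star_eq_conjTranspose] using this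
  have htr : (B * M' * Bᴴ).trace = Fintype.card V := by
    have e1 : (B * M' * Bᴴ).trace = (K * M').trace := by
      rw [Matrix.trace_mul_comm, ← Matrix.mul_assoc, ← hB]
    have e2 : (K * M').trace = (K * M).trace := by
      simp only [Matrix.trace, Matrix.diag_apply, Matrix.mul_apply]
      refine Finset.sum_congr rfl fun u _ => Finset.sum_congr rfl fun v _ => ?_
      rcases h u v with h0 | h0
      · rw [h0, zero_mul, zero_mul]
      · have a1 : M' v u = M' u v := by
          have := hM'.isHermitian.apply v u
          simpa using this.symm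
        have a2 : M v u = M u v := by
          have := hM.isHermitian.apply v u
          simpa using this.symm
        rw [a1, a2, h0]
    rw [e1, e2, hK, Matrix.trace_one]
  have hX1 : B * M' * Bᴴ ≠ 1 := by
    intro h1
    apply hne
    have h2 : K * M' = 1 := by
      have h3 : Bᴴ * (B * M') = 1 := by
        rw [← mul_eq_one_comm]
        exact h1
      rw [hB, Matrix.mul_assoc]
      exact h3
    have h4 : M * K = 1 := mul_eq_one_comm.mp hK
    calc M' = (M * K) * M' := by rw [h4, Matrix.one_mul]
      _ = M * (K * M') := by rw [Matrix.mul_assoc]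
      _ = M := by rw [h2, Matrix.mul_one]
  have hlt := det_lt_one hX htr hX1
  have hd : (B * M' * Bᴴ).det = K.det * M'.det := by
    rw [Matrix.det_mul, Matrix.det_mul, hB, Matrix.det_mul]
    ring
  rw [hd] at hlt
  have hKpos : 0 < K.det := hKp.det_pos
  have : K.det * M'.det < K.det * M.det := by rw [hdK]; exact hlt
  exact lt_of_mul_lt_mul_left this hKpos.le

end Pool.Agent.V11121.MaxDet
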